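import Mathlib

set_option autoImplicit false

namespace Pool.Agent.Results.MP_3c7c52_co.FourSquares

open MeasureTheory Set

/-- A rectilinear path with `t` turns, as in the problem file, given by its `t + 1` pieces
`σ_0, …, σ_t`: each piece is horizontal or vertical, `σ_j` is the set of the points whose fixed
coordinate is `c j` and whose moving coordinate lies in `I j`. -/
structure RectPath (t : ℕ) where
  /-- `true` when the piece is horizontal, `false` when it is vertical -/
  horizontal : Fin (t + 1) → Bool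
  /-- the fixed coordinate -/
  c : Fin (t + 1) → ℝ
  /-- the range of the moving coordinate -/
  I : Fin (t + 1) → Set ℝ
  /-- for `t = 0` the path is a line -/
  line : t = 0 → ∀ j, I j = univ
  /-- for `t > 0` the first and the last piece are closed rays -/
  ray : 0 < t → ∀ j, (j = 0 ∨ j = Fin.last t) → ∃ a : ℝ, I j = Ici a ∨ I j = Iic a
  /-- the other pieces are (nondegenerate, closed) bounded segments -/
  segment : ∀ j, j ≠ 0 → j ≠ Fin.last t → ∃ a b : ℝ, a < b ∧ I j = Icc a b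
  /-- consecutive pieces are perpendicular -/
  perp : ∀ j k : Fin (t + 1), (k : ℕ) = j + 1 → horizontal k = !horizontal j
  /-- consecutive pieces share exactly one point, and it is an endpoint of both -/
  turn : ∀ j k : Fin (t + 1), (k : ℕ) = j + 1 →
    ∃ p : ℝ × ℝ,
      (if horizontal j then I j ×ˢ {c j} else {c j} ×ˢ I j) ∩
        (if horizontal k then I k ×ˢ {c k} else {c k} ×ˢ I k) = {p} ∧
      (if horizontal j then p.1 else p.2) ∈ frontier (I j) ∧
      (if horizontal k then p.1 else p.2) ∈ frontier (I k)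
  /-- non-consecutive pieces are disjoint -/
  simple : ∀ j k : Fin (t + 1), (j : ℕ) + 1 < k →
    Disjoint (if horizontal j then I j ×ˢ {c j} else {c j} ×ˢ I j : Set (ℝ × ℝ))
      (if horizontal k then I k ×ˢ {c k} else {c k} ×ˢ I k)

/-- The piece `σ_j` of the path, a subset of the plane. -/
def RectPath.piece {t : ℕ} (γ : RectPath t) (j : Fin (t + 1)) : Set (ℝ × ℝ) :=
  if γ.horizontal j then γ.I j ×ˢ {γ.c j} else {γ.c j} ×ˢ γ.I j

/-- The path as a subset of the plane: the union of its pieces. -/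
def RectPath.carrier {t : ℕ} (γ : RectPath t) : Set (ℝ × ℝ) := ⋃ j, γ.piece j

/-- The path halves `μ`: every connected component of the complement of the path has half of the
total mass. -/
def RectPath.Halves {t : ℕ} (γ : RectPath t) (μ : Measure (ℝ × ℝ)) : Prop :=
  ∀ p ∈ γ.carrierᶜ, μ (connectedComponentIn γ.carrierᶜ p) = μ univ / 2

/-- A halving set must have a boundary point inside every connected open set carrying the
measure. -/
lemma exists_frontier_mem {Q U : Set (ℝ × ℝ)} (hQ : IsPreconnected Q)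
    (hU : IsOpen U) (hpos : volume Q ≠ 0) (hfin : volume Q ≠ ⊤)
    (hhalf : (volume.restrict Q) U = (volume.restrict Q) univ / 2) :
    ∃ p ∈ Q, p ∈ frontier U := by
  by_contra hcon
  push Not at hcon
  have hsub : Q ⊆ U ∪ (closure U)ᶜ := by
    intro p hp
    by_cases h : p ∈ U
    · exact Or.inl h
    · right
      intro hc
      exact hcon p hp (by rw [hU.frontier_eq]; exact ⟨hc, h⟩)
  have hdisj : Disjoint U (closure U)ᶜ :=
    disjoint_compl_right.mono_left subset_closure
  rw [Measure.restrict_apply hU.measurableSet, Measure.restrict_apply MeasurableSet.univ,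
    univ_inter] at hhalf
  rcases IsPreconnected.subset_or_subset hU isClosed_closure.isOpen_compl hdisj hsub hQ with h | h
  · rw [inter_eq_self_of_subset_right h] at hhalf
    have h1 : volume Q / 2 < volume Q := ENNReal.half_lt_self hpos hfin
    rw [← hhalf] at h1
    exact lt_irrefl _ h1
  · have h0 : U ∩ Q = ∅ := by
      rw [← disjoint_iff_inter_eq_empty]
      exact hdisj.mono_right h
    rw [h0, measure_empty] at hhalf
    have h2 : volume Q / 2 ≠ 0 := by
      simp [ENNReal.div_eq_zero_iff, hpos]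
    exact h2 hhalf.symm

/-- Abscissas of the four squares. -/
def cx (i : Fin 4) : ℕ := ![0, 1, 2, 3] i
/-- Ordinates of the four squares. -/
def cy (i : Fin 4) : ℕ := ![0, 2, 1, 3] i

/-- The four small open squares. -/
def sq (i : Fin 4) : Set (ℝ × ℝ) :=
  Ioo ((cx i : ℝ) - 1 / 4) ((cx i : ℝ) + 1 / 4) ×ˢ Ioo ((cy i : ℝ) - 1 / 4) ((cy i : ℝ) + 1 / 4)

lemma sq_preconnected (i : Fin 4) : IsPreconnected (sq i) :=
  (isPreconnected_Ioo).prod isPreconnected_Ioo

lemma sq_volume (i : Fin 4) : volume (sq i) = ENNReal.ofReal (1 / 2) * ENNReal.ofReal (1 / 2) := by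
  rw [sq, Measure.volume_eq_prod, Measure.prod_prod, Real.volume_Ioo, Real.volume_Ioo]
  congr 2 <;> ring

/-- Comparison of real coordinates of points of squares gives comparison of indices. -/
lemma le_of_le {a b : ℕ} {u v : ℝ} (hu : u ∈ Ioo ((a : ℝ) - 1 / 4) ((a : ℝ) + 1 / 4))
    (hv : v ∈ Ioo ((b : ℝ) - 1 / 4) ((b : ℝ) + 1 / 4)) (h : u ≤ v) : a ≤ b := by
  by_contra hcon
  push Not at hcon
  have h1 : (b : ℝ) + 1 ≤ a := by exact_mod_cast hcon
  have h2 := hu.1
  have h3 := hv.2
  linarith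

lemma ne_of_ne {a b : ℕ} {u v : ℝ} (hu : u ∈ Ioo ((a : ℝ) - 1 / 4) ((a : ℝ) + 1 / 4))
    (hv : v ∈ Ioo ((b : ℝ) - 1 / 4) ((b : ℝ) + 1 / 4)) (h : a ≠ b) : u ≠ v := by
  intro huv
  subst huv
  rcases lt_or_gt_of_ne h with h | h
  · have h1 : (a : ℝ) + 1 ≤ b := by exact_mod_cast h
    have h2 := hu.2
    have h3 := hv.1
    linarith
  · have h1 : (b : ℝ) + 1 ≤ a := by exact_mod_cast h
    have h2 := hu.1
    have h3 := hv.2
    linarith

/-- Combinatorial core: no order of the four points is compatible with four alternating pieces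
of type horizontal, vertical, horizontal, vertical. -/
lemma core1 : ∀ a b c d : Fin 4, a ≠ b → a ≠ c → a ≠ d → b ≠ c → b ≠ d → c ≠ d →
    ((cy a ≤ cy b ∧ cy b ≤ cy c) ∨ (cy c ≤ cy b ∧ cy b ≤ cy a)) →
    ((cx b ≤ cx c ∧ cx c ≤ cx d) ∨ (cx d ≤ cx c ∧ cx c ≤ cx b)) → False := by
  decide

/-- The same for four alternating pieces of type vertical, horizontal, vertical, horizontal. -/
lemma core2 : ∀ a b c d : Fin 4, a ≠ b → a ≠ c → a ≠ d → b ≠ c → b ≠ d → c ≠ d →
    ((cx a ≤ cx b ∧ cx b ≤ cx c) ∨ (cx c ≤ cx b ∧ cx b ≤ cx a)) →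
    ((cy b ≤ cy c ∧ cy c ≤ cy d) ∨ (cy d ≤ cy c ∧ cy c ≤ cy b)) → False := by
  decide

lemma mem_piece_h {t : ℕ} (γ : RectPath t) {j : Fin (t + 1)} (h : γ.horizontal j = true)
    (p : ℝ × ℝ) : p ∈ γ.piece j ↔ p.1 ∈ γ.I j ∧ p.2 = γ.c j := by
  simp [RectPath.piece, h]

lemma mem_piece_v {t : ℕ} (γ : RectPath t) {j : Fin (t + 1)} (h : γ.horizontal j = false)
    (p : ℝ × ℝ) : p ∈ γ.piece j ↔ p.1 = γ.c j ∧ p.2 ∈ γ.I j := by
  simp [RectPath.piece, h]

lemma isClosed_I {t : ℕ} (γ : RectPath t) (j : Fin (t + 1)) : IsClosed (γ.I j) := by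
  by_cases ht : t = 0
  · rw [γ.line ht j]
    exact isClosed_univ
  by_cases hj : j = 0 ∨ j = Fin.last t
  · obtain ⟨a, h | h⟩ := γ.ray (Nat.pos_of_ne_zero ht) j hj
    · rw [h]
      exact isClosed_Ici
    · rw [h]
      exact isClosed_Iic
  · push Not at hj
    obtain ⟨a, b, -, h⟩ := γ.segment j hj.1 hj.2
    rw [h]
    exact isClosed_Icc

lemma isClosed_piece {t : ℕ} (γ : RectPath t) (j : Fin (t + 1)) : IsClosed (γ.piece j) := by
  unfold RectPath.piece
  split_ifs
  · exact (isClosed_I γ j).prod isClosed_singleton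
  · exact isClosed_singleton.prod (isClosed_I γ j)

lemma isClosed_carrier {t : ℕ} (γ : RectPath t) : IsClosed γ.carrier :=
  isClosed_iUnion_of_finite (isClosed_piece γ)

lemma exists_not_mem {t : ℕ} (γ : RectPath t) : ∃ p, p ∈ γ.carrierᶜ := by
  obtain ⟨x, hx⟩ : ∃ x : ℝ, x ∉ range γ.c := (finite_range γ.c).exists_notMem
  refine ⟨(x, x), ?_⟩
  intro h
  obtain ⟨j, hj⟩ := mem_iUnion.1 h
  cases hh : γ.horizontal j
  · rw [mem_piece_v γ hh] at hj
    exact hx ⟨j, hj.1.symm⟩
  · rw [mem_piece_h γ hh] at hj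
    exact hx ⟨j, hj.2.symm⟩

/-- The boundary of a component of the complement lies on the path. -/
lemma frontier_subset {t : ℕ} (γ : RectPath t) (p : ℝ × ℝ) :
    frontier (connectedComponentIn γ.carrierᶜ p) ⊆ γ.carrier := by
  have hop : IsOpen γ.carrierᶜ := (isClosed_carrier γ).isOpen_compl
  intro q hq
  by_contra hc
  have hqc : q ∈ γ.carrierᶜ := hc
  have hUo : IsOpen (connectedComponentIn γ.carrierᶜ p) := hop.connectedComponentIn
  rw [hUo.frontier_eq] at hq
  have hQo : IsOpen (connectedComponentIn γ.carrierᶜ q) := hop.connectedComponentIn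
  obtain ⟨r, hr1, hr2⟩ := mem_closure_iff.1 hq.1 _ hQo (mem_connectedComponentIn hqc)
  have h1 := connectedComponentIn_eq hr1
  have h2 := connectedComponentIn_eq hr2
  apply hq.2
  rw [h2, ← h1]
  exact mem_connectedComponentIn hqc

/-- If `q` lies on the piece `j` between the turns with the previous piece `i` and the next piece
`k`, then its moving coordinate is between the fixed coordinates of `i` and `k`. -/
lemma between_h {t : ℕ} (γ : RectPath t) {i j k : Fin (t + 1)} (hij : (j : ℕ) = i + 1)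
    (hjk : (k : ℕ) = j + 1) (hj : γ.horizontal j = true) {q : ℝ × ℝ} (hq : q ∈ γ.piece j) :
    (γ.c i ≤ q.1 ∧ q.1 ≤ γ.c k) ∨ (γ.c k ≤ q.1 ∧ q.1 ≤ γ.c i) := by
  have hi : γ.horizontal i = false := by
    have := γ.perp i j hij
    rw [hj] at this
    revert this
    cases γ.horizontal i <;> simp
  have hk : γ.horizontal k = false := by
    have := γ.perp j k hjk
    rw [hj] at this
    simpa using this
  obtain ⟨p, hp, -, hpj⟩ := γ.turn i j hij
  obtain ⟨r, hr, hrj, -⟩ := γ.turn j k hjk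
  have hp' : p ∈ γ.piece i ∩ γ.piece j := by
    have : p ∈ ({p} : Set (ℝ × ℝ)) := rfl
    rw [← hp] at this
    exact this
  have hr' : r ∈ γ.piece j ∩ γ.piece k := by
    have : r ∈ ({r} : Set (ℝ × ℝ)) := rfl
    rw [← hr] at this
    exact this
  have hne : p ≠ r := by
    rintro rfl
    have hdis := γ.simple i k (by omega)
    exact (Set.disjoint_left.1 hdis) hp'.1 hr'.2
  rw [if_pos hj] at hpj hrj
  have e1 := ((mem_piece_v γ hi p).1 hp'.1).1
  have e2 := ((mem_piece_v γ hk r).1 hr'.2).1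
  have e3 := ((mem_piece_h γ hj p).1 hp'.2).2
  have e4 := ((mem_piece_h γ hj r).1 hr'.1).2
  have hne1 : p.1 ≠ r.1 := fun h => hne (Prod.ext h (e3.trans e4.symm))
  have hj0 : j ≠ 0 := by
    rintro rfl
    simp at hij
  have hjl : j ≠ Fin.last t := by
    rintro rfl
    have := k.2
    rw [hjk, Fin.val_last] at this
    omega
  obtain ⟨a, b, hab, hI⟩ := γ.segment j hj0 hjl
  rw [hI, frontier_Icc hab.le] at hpj hrj
  have hq1 := ((mem_piece_h γ hj q).1 hq).1
  rw [hI] at hq1
  simp only [mem_insert_iff, mem_singleton_iff] at hpj hrj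
  rw [← e1, ← e2]
  rcases hpj with h | h <;> rcases hrj with h' | h'
  · exact absurd (h.trans h'.symm) hne1
  · left
    rw [h, h']
    exact ⟨hq1.1, hq1.2⟩
  · right
    rw [h, h']
    exact ⟨hq1.1, hq1.2⟩
  · exact absurd (h.trans h'.symm) hne1

/-- The same for a vertical piece. -/
lemma between_v {t : ℕ} (γ : RectPath t) {i j k : Fin (t + 1)} (hij : (j : ℕ) = i + 1)
    (hjk : (k : ℕ) = j + 1) (hj : γ.horizontal j = false) {q : ℝ × ℝ} (hq : q ∈ γ.piece j) :
    (γ.c i ≤ q.2 ∧ q.2 ≤ γ.c k) ∨ (γ.c k ≤ q.2 ∧ q.2 ≤ γ.c i) := by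
  have hi : γ.horizontal i = true := by
    have := γ.perp i j hij
    rw [hj] at this
    revert this
    cases γ.horizontal i <;> simp
  have hk : γ.horizontal k = true := by
    have := γ.perp j k hjk
    rw [hj] at this
    simpa using this
  obtain ⟨p, hp, -, hpj⟩ := γ.turn i j hij
  obtain ⟨r, hr, hrj, -⟩ := γ.turn j k hjk
  have hp' : p ∈ γ.piece i ∩ γ.piece j := by
    have : p ∈ ({p} : Set (ℝ × ℝ)) := rfl
    rw [← hp] at this
    exact this
  have hr' : r ∈ γ.piece j ∩ γ.piece k := by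
    have : r ∈ ({r} : Set (ℝ × ℝ)) := rfl
    rw [← hr] at this
    exact this
  have hne : p ≠ r := by
    rintro rfl
    have hdis := γ.simple i k (by omega)
    exact (Set.disjoint_left.1 hdis) hp'.1 hr'.2
  rw [if_neg (by simp [hj])] at hpj hrj
  have e1 := ((mem_piece_h γ hi p).1 hp'.1).2
  have e2 := ((mem_piece_h γ hk r).1 hr'.2).2
  have e3 := ((mem_piece_v γ hj p).1 hp'.2).1
  have e4 := ((mem_piece_v γ hj r).1 hr'.1).1
  have hne1 : p.2 ≠ r.2 := fun h => hne (Prod.ext (e3.trans e4.symm) h)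
  have hj0 : j ≠ 0 := by
    rintro rfl
    simp at hij
  have hjl : j ≠ Fin.last t := by
    rintro rfl
    have := k.2
    rw [hjk, Fin.val_last] at this
    omega
  obtain ⟨a, b, hab, hI⟩ := γ.segment j hj0 hjl
  rw [hI, frontier_Icc hab.le] at hpj hrj
  have hq1 := ((mem_piece_v γ hj q).1 hq).2
  rw [hI] at hq1
  simp only [mem_insert_iff, mem_singleton_iff] at hpj hrj
  rw [← e1, ← e2]
  rcases hpj with h | h <;> rcases hrj with h' | h'
  · exact absurd (h.trans h'.symm) hne1
  · left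
    rw [h, h']
    exact ⟨hq1.1, hq1.2⟩
  · right
    rw [h, h']
    exact ⟨hq1.1, hq1.2⟩
  · exact absurd (h.trans h'.symm) hne1

/-- **Disproof of Kano's statement for `n = 4`.** There are four finite measures on the plane,
absolutely continuous with respect to Lebesgue measure, such that every rectilinear path which
halves all four has at least four turns. -/
theorem result : ∃ μ : Fin 4 → Measure (ℝ × ℝ),
    (∀ i, IsFiniteMeasure (μ i)) ∧ (∀ i, μ i ≪ (volume : Measure (ℝ × ℝ))) ∧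
    ∀ (t : ℕ) (γ : RectPath t), (∀ i, γ.Halves (μ i)) → 4 ≤ t := by
  have hvol : ∀ i : Fin 4, volume (sq i) ≠ ⊤ := by
    intro i
    rw [sq_volume]
    exact ENNReal.mul_ne_top ENNReal.ofReal_ne_top ENNReal.ofReal_ne_top
  have hvol0 : ∀ i : Fin 4, volume (sq i) ≠ 0 := by
    intro i
    rw [sq_volume]
    have : ENNReal.ofReal (1 / 2) ≠ 0 := by
      rw [Ne, ENNReal.ofReal_eq_zero]
      norm_num
    exact mul_ne_zero this this
  refine ⟨fun i => volume.restrict (sq i), fun i => ⟨by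
        rw [Measure.restrict_apply MeasurableSet.univ, univ_inter]
        exact lt_top_iff_ne_top.mpr (hvol i)⟩,
      fun i => Measure.restrict_le_self.absolutelyContinuous, ?_⟩
  intro t γ hhalf
  by_contra ht4
  push Not at ht4
  obtain ⟨p0, hp0⟩ := exists_not_mem γ
  have hop : IsOpen γ.carrierᶜ := (isClosed_carrier γ).isOpen_compl
  have hex : ∀ i : Fin 4, ∃ (j : Fin (t + 1)) (q : ℝ × ℝ), q ∈ sq i ∧ q ∈ γ.piece j := by
    intro i
    obtain ⟨p, hp, hpf⟩ := exists_frontier_mem (sq_preconnected i)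
      (hop.connectedComponentIn (x := p0)) (hvol0 i) (hvol i) (hhalf i p0 hp0)
    obtain ⟨j, hj⟩ := mem_iUnion.1 (frontier_subset γ p0 hpf)
    exact ⟨j, p, hp, hj⟩
  choose J q hq hJ using hex
  have hcx : ∀ i j : Fin 4, i ≠ j → cx i ≠ cx j := by decide
  have hcy : ∀ i j : Fin 4, i ≠ j → cy i ≠ cy j := by decide
  have hne1 : ∀ i j : Fin 4, i ≠ j → (q i).1 ≠ (q j).1 := fun i j hij =>
    ne_of_ne (hq i).1 (hq j).1 (hcx i j hij)
  have hne2 : ∀ i j : Fin 4, i ≠ j → (q i).2 ≠ (q j).2 := fun i j hij =>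
    ne_of_ne (hq i).2 (hq j).2 (hcy i j hij)
  have hJinj : Function.Injective J := by
    intro i j hij
    by_contra hcon
    have h1 := hJ i
    have h2 := hJ j
    rw [← hij] at h2
    cases hh : γ.horizontal (J i)
    · rw [mem_piece_v γ hh] at h1 h2
      exact hne1 i j hcon (h1.1.trans h2.1.symm)
    · rw [mem_piece_h γ hh] at h1 h2
      exact hne2 i j hcon (h1.2.trans h2.2.symm)
  have hcard : t = 3 := by
    have := Fintype.card_le_of_injective J hJinj
    simp only [Fintype.card_fin] at this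
    omega
  subst hcard
  have hJs : Function.Surjective J := Finite.surjective_of_injective hJinj
  obtain ⟨a, ha⟩ := hJs 0
  obtain ⟨b, hb⟩ := hJs 1
  obtain ⟨c, hc⟩ := hJs 2
  obtain ⟨d, hd⟩ := hJs 3
  have qa := hJ a
  have qb := hJ b
  have qc := hJ c
  have qd := hJ d
  rw [ha] at qa
  rw [hb] at qb
  rw [hc] at qc
  rw [hd] at qd
  have n01 : a ≠ b := by rintro rfl; rw [ha] at hb; exact absurd hb (by decide)
  have n02 : a ≠ c := by rintro rfl; rw [ha] at hc; exact absurd hc (by decide)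
  have n03 : a ≠ d := by rintro rfl; rw [ha] at hd; exact absurd hd (by decide)
  have n12 : b ≠ c := by rintro rfl; rw [hb] at hc; exact absurd hc (by decide)
  have n13 : b ≠ d := by rintro rfl; rw [hb] at hd; exact absurd hd (by decide)
  have n23 : c ≠ d := by rintro rfl; rw [hc] at hd; exact absurd hd (by decide)
  have p01 := γ.perp 0 1 rfl
  have p12 := γ.perp 1 2 rfl
  have p23 := γ.perp 2 3 rfl
  have ia := hq a
  have ib := hq b
  have ic := hq c
  have id' := hq d
  cases h0 : γ.horizontal 0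
  · -- first piece vertical
    have h1 : γ.horizontal 1 = true := by rw [p01, h0]; rfl
    have h2 : γ.horizontal 2 = false := by rw [p12, h1]; rfl
    have h3 : γ.horizontal 3 = true := by rw [p23, h2]; rfl
    have w1 := between_h γ (i := 0) (j := 1) (k := 2) rfl rfl h1 qb
    have w2 := between_v γ (i := 1) (j := 2) (k := 3) rfl rfl h2 qc
    rw [mem_piece_v γ h0] at qa
    rw [mem_piece_h γ h1] at qb
    rw [mem_piece_v γ h2] at qc
    rw [mem_piece_h γ h3] at qd
    rw [← qa.1, ← qc.1] at w1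
    rw [← qb.2, ← qd.2] at w2
    refine core2 a b c d n01 n02 n03 n12 n13 n23 ?_ ?_
    · rcases w1 with ⟨w, w'⟩ | ⟨w, w'⟩
      · exact Or.inl ⟨le_of_le ia.1 ib.1 w, le_of_le ib.1 ic.1 w'⟩
      · exact Or.inr ⟨le_of_le ic.1 ib.1 w, le_of_le ib.1 ia.1 w'⟩
    · rcases w2 with ⟨w, w'⟩ | ⟨w, w'⟩
      · exact Or.inl ⟨le_of_le ib.2 ic.2 w, le_of_le ic.2 id'.2 w'⟩
      · exact Or.inr ⟨le_of_le id'.2 ic.2 w, le_of_le ic.2 ib.2 w'⟩
  · -- first piece horizontal
    have h1 : γ.horizontal 1 = false := by rw [p01, h0]; rfl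
    have h2 : γ.horizontal 2 = true := by rw [p12, h1]; rfl
    have h3 : γ.horizontal 3 = false := by rw [p23, h2]; rfl
    have w1 := between_v γ (i := 0) (j := 1) (k := 2) rfl rfl h1 qb
    have w2 := between_h γ (i := 1) (j := 2) (k := 3) rfl rfl h2 qc
    rw [mem_piece_h γ h0] at qa
    rw [mem_piece_v γ h1] at qb
    rw [mem_piece_h γ h2] at qc
    rw [mem_piece_v γ h3] at qd
    rw [← qa.2, ← qc.2] at w1
    rw [← qb.1, ← qd.1] at w2
    refine core1 a b c d n01 n02 n03 n12 n13 n23 ?_ ?_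
    · rcases w1 with ⟨w, w'⟩ | ⟨w, w'⟩
      · exact Or.inl ⟨le_of_le ia.2 ib.2 w, le_of_le ib.2 ic.2 w'⟩
      · exact Or.inr ⟨le_of_le ic.2 ib.2 w, le_of_le ib.2 ia.2 w'⟩
    · rcases w2 with ⟨w, w'⟩ | ⟨w, w'⟩
      · exact Or.inl ⟨le_of_le ib.1 ic.1 w, le_of_le ic.1 id'.1 w'⟩
      · exact Or.inr ⟨le_of_le id'.1 ic.1 w, le_of_le ic.1 ib.1 w'⟩

end Pool.Agent.Results.MP_3c7c52_co.FourSquares
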